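import Pool.Agent.Q55.DT.Stm2

/-! Job DT-FIND of project DT (helper55): the final assembly. -/

namespace Pool.Agent.Q225.DT

open Pool.Agent.Q55.DT Module Filter
open scoped ENNReal Topology

theorem limsup_up (d c : ℕ) (hd : 1 ≤ d) (a : ℕ → ℕ)
    (h : ∀ k, 1 ≤ k → a k ≤ k * (k + 1) ^ (d - 1) * c) :
    limsup (fun k : ℕ => (d.factorial : ℝ≥0∞) * (a k : ℝ≥0∞) / (k : ℝ≥0∞) ^ d) atTop ≤
      d.factorial * c := by
  have h0 : Tendsto (fun k : ℕ => (1 + (k : ℝ≥0∞)⁻¹) ^ (d - 1)) atTop (𝓝 ((1 + 0) ^ (d - 1))) :=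
    ENNReal.Tendsto.pow (tendsto_const_nhds.add ENNReal.tendsto_inv_nat_nhds_zero)
  have h1 : Tendsto (fun k : ℕ => ((d.factorial : ℝ≥0∞) * c) * (1 + (k : ℝ≥0∞)⁻¹) ^ (d - 1)) atTop
      (𝓝 (((d.factorial : ℝ≥0∞) * c) * (1 + 0) ^ (d - 1))) := by
    refine ENNReal.Tendsto.const_mul h0 ?_
    right
    exact ENNReal.mul_ne_top (ENNReal.natCast_ne_top _) (ENNReal.natCast_ne_top _)
  rw [add_zero, one_pow, mul_one] at h1
  rw [← h1.limsup_eq]
  refine limsup_le_limsup ?_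
  filter_upwards [eventually_ge_atTop 1] with k hk
  have hm0 : (k : ℝ≥0∞) ≠ 0 := by
    rw [Nat.cast_ne_zero]; omega
  have hmt : (k : ℝ≥0∞) ≠ ∞ := ENNReal.natCast_ne_top k
  have h3 : ((a k : ℕ) : ℝ≥0∞) ≤ (k : ℝ≥0∞) * ((k : ℝ≥0∞) + 1) ^ (d - 1) * c := by
    have := h k hk
    exact_mod_cast this
  rw [ENNReal.div_le_iff (pow_ne_zero d hm0) (ENNReal.pow_ne_top hmt)]
  have h5 : (k : ℝ≥0∞) ^ d = (k : ℝ≥0∞) * (k : ℝ≥0∞) ^ (d - 1) := by
    rw [← pow_succ']
    congr 1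
    omega
  have h6 : (1 + (k : ℝ≥0∞)⁻¹) * (k : ℝ≥0∞) = (k : ℝ≥0∞) + 1 := by
    rw [add_mul, one_mul, ENNReal.inv_mul_cancel hm0 hmt]
  calc (d.factorial : ℝ≥0∞) * (a k : ℝ≥0∞) ≤
      d.factorial * ((k : ℝ≥0∞) * ((k : ℝ≥0∞) + 1) ^ (d - 1) * c) := by gcongr
    _ = (d.factorial : ℝ≥0∞) * c * ((k : ℝ≥0∞) * ((k : ℝ≥0∞) + 1) ^ (d - 1)) := by ring
    _ = (d.factorial : ℝ≥0∞) * c * (1 + (k : ℝ≥0∞)⁻¹) ^ (d - 1) * (k : ℝ≥0∞) ^ d := by
      rw [h5, ← h6, mul_pow]
      ring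

theorem length_fin (hlen : S_LenK) {K : Type} [Field K] {A : Type} [CommRing A] [IsLocalRing A]
    [Algebra K A] (hres : ∀ a : A, ∃ z : K, ¬ IsUnit (a - algebraMap K A z))
    (I : Ideal A) (h : Module.Finite K (A ⧸ I)) :
    Module.length A (A ⧸ I) = (finrank K (A ⧸ I) : ℕ∞) := by
  rw [hlen K A hres I, Module.length_eq_finrank]

theorem find : S_FinD := by
  intro hloc hglow hlen hlmlow htone hdim hup K _ n m t ht htn htm
  rcases Nat.lt_or_ge 1 t with h1t | h1t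
  swap
  · have : t = 1 := by omega
    subst this
    exact htone K n m
  obtain ⟨r, rfl⟩ : ∃ r, t = r + 1 := ⟨t - 1, by omega⟩
  have hr : 1 ≤ r := by omega
  have hrn : r < n := by omega
  have hrm : r < m := by omega
  obtain ⟨hnoeth, hlocal, hres, hmem, -⟩ := hloc K n m (r + 1) ht
  have hmax : mIdeal K n m (r + 1) = IsLocalRing.maximalIdeal (DetRing K n m (r + 1)) := by
    ext a
    rw [hmem a]
    exact Iff.rfl
  set d : ℕ := r * (n + m - r) with hd
  have hd1 : 1 ≤ d := by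
    have : 1 ≤ n + m - r := by omega
    exact Nat.mul_pos hr this
  have hk : kdim (DetRing K n m (r + 1)) = d := by
    unfold kdim
    rw [hdim K n m r hr hrn hrm]
    rfl
  apply le_antisymm
  · unfold lechMumford
    refine iSup₂_le fun I hI => ?_
    have hrad : I.radical = mIdeal K n m (r + 1) := by
      rw [hmax]
      exact IsLocalRing.eq_maximalIdeal hI
    obtain ⟨f1, fm⟩ := hup K n m r hr hrn hrm I hrad
    have e3 : hsMult (DetRing K n m (r + 1)) I ≤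
        d.factorial * (finrank K (DetRing K n m (r + 1) ⧸ I) : ℝ≥0∞) := by
      have h4 := limsup_up d (finrank K (DetRing K n m (r + 1) ⧸ I)) hd1
        (fun k => finrank K (DetRing K n m (r + 1) ⧸ I ^ k)) (fun k hk => (fm k hk).2)
      refine le_trans (le_of_eq ?_) h4
      unfold hsMult
      rw [hk]
      refine limsup_congr ?_
      filter_upwards [eventually_ge_atTop 1] with k hk1
      rw [length_fin hlen hres _ (fm k hk1).1]
      simp
    rw [hk, length_fin hlen hres I f1]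
    refine ENNReal.div_le_of_le_mul ?_
    rw [one_mul]
    refine e3.trans (le_of_eq ?_)
    simp
  · refine hlmlow (DetRing K n m (r + 1)) ?_ ?_
    · intro k
      rw [← hmax, length_fin hlen hres _ (hglow K n m r hr hrn hrm k).1]
      exact ENat.natCast_ne_top _
    · intro k
      obtain ⟨g1, g2⟩ := hglow K n m r hr hrn hrm k
      rw [hk, ← hmax, length_fin hlen hres _ g1]
      exact_mod_cast g2

end Pool.Agent.Q225.DT
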