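import Pool.Agent.Q55.DT.Stm

/-! Job DT-TONE of project DT (helper55): the case `t = 1`. -/

namespace Pool.Agent.Q225.DT

open Pool.Agent.Q55.DT Module Filter
open scoped ENNReal

theorem mem_span_X {K : Type} [Field K] {V : Type} [DecidableEq V] (S : Finset V) :
    ∀ f : MvPowerSeries V K, (∀ e : V →₀ ℕ, (∀ v ∈ S, e v = 0) → MvPowerSeries.coeff e f = 0) →
      f ∈ Ideal.span (Set.range fun v : V => (MvPowerSeries.X v : MvPowerSeries V K)) := by
  classical
  induction S using Finset.induction_on with
  | empty =>
    intro f hf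
    have : f = 0 := by
      ext e
      rw [hf e (by simp)]
      simp
    rw [this]
    exact Ideal.zero_mem _
  | insert s S' hs ih =>
    intro f hf
    let f1 : MvPowerSeries V K := fun e => if e s = 0 then 0 else MvPowerSeries.coeff e f
    let f2 : MvPowerSeries V K := fun e => if e s = 0 then MvPowerSeries.coeff e f else 0
    have c1 : ∀ e, MvPowerSeries.coeff e f1 = if e s = 0 then 0 else MvPowerSeries.coeff e f :=
      fun e => rfl
    have c2 : ∀ e, MvPowerSeries.coeff e f2 = if e s = 0 then MvPowerSeries.coeff e f else 0 :=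
      fun e => rfl
    have hsum : f = f1 + f2 := by
      ext e
      rw [map_add, c1, c2]
      split_ifs <;> simp
    rw [hsum]
    refine Ideal.add_mem _ ?_ (ih f2 ?_)
    · have hd : MvPowerSeries.X s ∣ f1 := by
        rw [MvPowerSeries.X_dvd_iff]
        intro e he
        rw [c1, if_pos he]
      obtain ⟨g, hg⟩ := hd
      rw [hg]
      exact Ideal.mul_mem_right _ _ (Ideal.subset_span ⟨s, rfl⟩)
    · intro e he
      rw [c2]
      split_ifs with h0
      · refine hf e ?_
        intro v hv
        rcases Finset.mem_insert.1 hv with rfl | hv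
        · exact h0
        · exact he v hv
      · rfl

theorem minor_eq (K : Type) [Field K] (n m : ℕ) :
    minorIdeal K n m 1 = RingHom.ker (MvPowerSeries.constantCoeff (σ := Fin n × Fin m) (R := K)) := by
  classical
  apply le_antisymm
  · refine Ideal.span_le.2 ?_
    rintro x ⟨a, b, -, -, rfl⟩
    rw [SetLike.mem_coe, RingHom.mem_ker, Matrix.det_fin_one]
    simp
  · intro f hf
    rw [RingHom.mem_ker] at hf
    have h1 := mem_span_X (Finset.univ : Finset (Fin n × Fin m)) f (by
      intro e he
      have : e = 0 := by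
        ext v
        simpa using he v (Finset.mem_univ v)
      rw [this]
      simpa using hf)
    refine Ideal.span_le.2 ?_ h1
    rintro x ⟨v, rfl⟩
    refine Ideal.subset_span ⟨fun _ => v.1, fun _ => v.2, ?_, ?_, ?_⟩
    · intro i j hij; exact absurd hij (by simp [Subsingleton.elim i j])
    · intro i j hij; exact absurd hij (by simp [Subsingleton.elim i j])
    · rw [Matrix.det_fin_one]
      simp

theorem det_field (K : Type) [Field K] (n m : ℕ) : IsField (DetRing K n m 1) := by
  have h1 : (minorIdeal K n m 1).IsMaximal := by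
    rw [minor_eq]
    refine RingHom.ker_isMaximal_of_surjective _ ?_
    intro z
    exact ⟨MvPowerSeries.C z, by simp⟩
  exact (Ideal.Quotient.maximal_ideal_iff_isField_quotient _).1 h1

theorem lm_field (A : Type) [CommRing A] (hA : IsField A) : lechMumford A = 1 := by
  classical
  have hbot : (⊥ : Ideal A).IsMaximal := by
    letI := hA.toField
    exact Ideal.bot_isMaximal
  have hkd : kdim A = 0 := by
    rw [kdim, ringKrullDim_eq_zero_of_isField hA]
    rfl
  have hlen : Module.length A (A ⧸ (⊥ : Ideal A)) = 1 := by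
    haveI : IsSimpleModule A (A ⧸ (⊥ : Ideal A)) :=
      isSimpleModule_iff_isCoatom.2 (Ideal.isMaximal_def.1 hbot)
    exact Module.length_eq_one A _
  have hprime : IsDomain A := hA.isDomain
  have hI : ∀ I : Ideal A, I.radical.IsMaximal → I = ⊥ := by
    intro I hI
    letI := hA.toField
    rcases Ideal.eq_bot_or_top I with h | h
    · exact h
    · exfalso
      rw [h, Ideal.radical_top] at hI
      exact hI.ne_top rfl
  have hrad : ((⊥ : Ideal A).radical).IsMaximal := by
    rwa [hbot.isPrime.radical]
  have hval : hsMult A ⊥ / (((kdim A).factorial : ℝ≥0∞) *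
      ((Module.length A (A ⧸ (⊥ : Ideal A)) : ℕ∞) : ℝ≥0∞)) = 1 := by
    rw [hlen, hkd]
    have : hsMult A ⊥ = 1 := by
      unfold hsMult
      rw [hkd]
      have : (fun m : ℕ => ((Nat.factorial 0 : ℕ) : ℝ≥0∞) *
          ((Module.length A (A ⧸ (⊥ : Ideal A) ^ m) : ℕ∞) : ℝ≥0∞) / (m : ℝ≥0∞) ^ 0)
          =ᶠ[atTop] fun _ => (1 : ℝ≥0∞) := by
        filter_upwards [eventually_ge_atTop 1] with m hm
        have : (⊥ : Ideal A) ^ m = ⊥ := by
          rw [← Ideal.zero_eq_bot, zero_pow (by omega)]
        rw [this, hlen]
        simp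
      rw [limsup_congr this]
      simp
    rw [this]
    simp
  unfold lechMumford
  apply le_antisymm
  · refine iSup₂_le ?_
    intro I h
    rw [hI I h, hval]
  · refine le_iSup₂_of_le ⊥ hrad ?_
    rw [hval]

theorem tone : S_TOne := fun K _ n m => lm_field _ (det_field K n m)

end Pool.Agent.Q225.DT
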